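import Mathlib
import Pool.Agent.Helper21.PD.P16
import Pool.Agent.Helper21.PD.P11
import Pool.Agent.Helper21.PD.P15

/-!
# The degree bound for the codimension of components (project DD, `MP_2c9d0b_al`)

Every minimal prime over `[u₁, …, u_i]` has differential transcendence degree at least
`n - ∑ deg u_m`: at a generic point `ξ` of the component the homogeneous parts of the `u_m (ξ + y)`
form a homogeneous system of `∑ deg u_m` equations, to which the theorem on homogeneous systems
applies.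
-/

open MvPolynomial

namespace Pool.Agent.Helper62.DD

open Pool.Agent.Helper21.PD

theorem totalDegree_eval₂_le {R K ι σ : Type} [CommRing R] [Field K]
    (φ : R →+* K) (pt : ι → MvPolynomial σ K) (hpt : ∀ i, (pt i).totalDegree ≤ 1)
    (G : MvPolynomial ι R) :
    (eval₂ ((C : K →+* MvPolynomial σ K).comp φ) pt G).totalDegree ≤ G.totalDegree := by
  classical
  rw [eval₂_eq]
  refine (totalDegree_finsetSum_le (d := G.totalDegree) fun γ hγ => ?_)
  refine (totalDegree_mul _ _).trans ?_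
  rw [RingHom.comp_apply, totalDegree_C, zero_add]
  refine (totalDegree_finsetProd _ _).trans ?_
  have h1 : ∀ i ∈ γ.support, (pt i ^ γ i).totalDegree ≤ γ i := fun i _ => by
    refine (totalDegree_pow _ _).trans ?_
    calc γ i * (pt i).totalDegree ≤ γ i * 1 := Nat.mul_le_mul_left _ (hpt i)
      _ = γ i := mul_one _
  refine (Finset.sum_le_sum h1).trans ?_
  exact le_totalDegree hγ

section

variable {K L : Type} [Field K] [Field L] {n : ℕ} (κ : K →+* L) (D : Der L) (ξ : Fin n → L)

/-- The translation `K{x} → L{y}`, `x ↦ ξ + y`. -/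
noncomputable def Θ : MvPolynomial (Fin n × ℕ) K →+* MvPolynomial (Fin n × ℕ) L :=
  eval₂Hom ((C : L →+* MvPolynomial (Fin n × ℕ) L).comp κ)
    (fun v => X v + C ((D)^[v.2] (ξ v.1)))

theorem Θ_C (a : K) : Θ κ D ξ (C a) = C (κ a) := by
  simp [Θ]

theorem Θ_X (v : Fin n × ℕ) : Θ κ D ξ (X v) = X v + C ((D)^[v.2] (ξ v.1)) := by
  simp [Θ]

theorem Θ_dext (d : Der K) (hκ : ∀ a, κ (d a) = D (κ a)) (g : MvPolynomial (Fin n × ℕ) K) :
    Θ κ D ξ (dext d g) = dext D (Θ κ D ξ g) := by
  refine derivation_ext (Θ κ D ξ) (fun g => Θ κ D ξ (dext d g))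
    (fun g => dext D (Θ κ D ξ g)) (by simp [Der.add]) (by simp [Der.add])
    (by simp [Der.mul]) (by simp [Der.mul]) ?_ ?_ g
  · intro a
    rw [dext_C, Θ_C, Θ_C, dext_C, hκ]
  · intro v
    rw [dext_X, Θ_X, Θ_X, Der.add, dext_X, dext_C, Function.iterate_succ_apply']

theorem Θ_dext_iterate (d : Der K) (hκ : ∀ a, κ (d a) = D (κ a)) (l : ℕ)
    (g : MvPolynomial (Fin n × ℕ) K) :
    Θ κ D ξ ((dext d)^[l] g) = (dext D)^[l] (Θ κ D ξ g) := by
  induction l with
  | zero => rfl
  | succ l ih => rw [Function.iterate_succ_apply', Function.iterate_succ_apply',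
      Θ_dext κ D ξ d hκ, ih]

theorem Θ_injective (g : MvPolynomial (Fin n × ℕ) K) (hg : Θ κ D ξ g = 0) : g = 0 := by
  have h1 : ((eval₂Hom (C : L →+* MvPolynomial (Fin n × ℕ) L)
      (fun v => X v - C ((D)^[v.2] (ξ v.1)))).comp (Θ κ D ξ)) = MvPolynomial.map κ := by
    refine MvPolynomial.ringHom_ext ?_ ?_
    · intro a
      rw [RingHom.comp_apply, Θ_C, map_C, coe_eval₂Hom, eval₂_C]
    · intro v
      rw [RingHom.comp_apply, Θ_X, map_X, map_add, coe_eval₂Hom, eval₂_X, eval₂_C,
        sub_add_cancel]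
  have h2 : MvPolynomial.map κ g = 0 := by
    rw [← h1, RingHom.comp_apply, hg, map_zero]
  exact (map_eq_zero_iff _ (MvPolynomial.map_injective κ κ.injective)).mp h2

theorem Θ_supported (J : Finset (Fin n)) (g : MvPolynomial (Fin n × ℕ) K)
    (hg : g ∈ supported K {v : Fin n × ℕ | v.1 ∈ J}) :
    Θ κ D ξ g ∈ supported L {v : Fin n × ℕ | v.1 ∈ J} := by
  rw [supported_eq_range_rename] at hg
  obtain ⟨g', rfl⟩ := hg
  change Θ κ D ξ (rename Subtype.val g') ∈ _
  induction g' using MvPolynomial.induction_on with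
  | C a =>
    rw [rename_C, Θ_C]
    exact Subalgebra.algebraMap_mem _ _
  | add p q hp hq =>
    rw [map_add, map_add]
    exact Subalgebra.add_mem _ hp hq
  | mul_X p v hp =>
    rw [map_mul, map_mul, rename_X, Θ_X]
    refine Subalgebra.mul_mem _ hp (Subalgebra.add_mem _ ?_ (Subalgebra.algebraMap_mem _ _))
    exact X_mem_supported.mpr v.2

end

theorem codim_le {K : Type} [Field K] [CharZero K] (d : Der K) {n i : ℕ}
    (u : Fin i → MvPolynomial (Fin n × ℕ) K) (P : Ideal (MvPolynomial (Fin n × ℕ) K))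
    (hP : P ∈ (diffIdeal d u).minimalPrimes) :
    ∃ J : Finset (Fin n), J.card = n - ∑ m, (u m).totalDegree ∧
      ∀ g ∈ supported K {v : Fin n × ℕ | v.1 ∈ J}, g ∈ P → g = 0 := by
  classical
  set N : ℕ := ∑ m, (u m).totalDegree with hN
  have hPp : P.IsPrime := hP.1.1
  have hPu : diffIdeal d u ≤ P := hP.1.2
  have hPd : ∀ f ∈ P, dext d f ∈ P :=
    minimalPrimes_differential (dext d) _ (P15.diffIdeal_stable d u) P hP
  obtain ⟨L, _, D, π, hπD, hπP⟩ := P15.exists_field (dext d) P hPp hPd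
  set κ : K →+* L := π.comp C with hκdef
  have hκ : ∀ a, κ (d a) = D (κ a) := fun a => by
    rw [hκdef, RingHom.comp_apply, RingHom.comp_apply, hπD, dext_C]
  have hchar : CharZero L := charZero_of_injective_ringHom κ.injective
  set ξ : Fin n → L := fun j => π (X (j, 0)) with hξ
  have hξk : ∀ (k : ℕ) (j : Fin n), (D)^[k] (ξ j) = π (X (j, k)) := by
    intro k j
    induction k with
    | zero => rfl
    | succ k ih => rw [Function.iterate_succ_apply', ih, hπD, dext_X]
  have hconst : ∀ g, constantCoeff (Θ κ D ξ g) = π g := by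
    intro g
    have : ((constantCoeff : MvPolynomial (Fin n × ℕ) L →+* L).comp (Θ κ D ξ)) = π := by
      refine MvPolynomial.ringHom_ext ?_ ?_
      · intro a
        rw [RingHom.comp_apply, Θ_C, constantCoeff_C]
        rfl
      · intro v
        rw [RingHom.comp_apply, Θ_X, map_add, constantCoeff_X, constantCoeff_C, zero_add, hξk]
    exact RingHom.congr_fun this g
  rcases Nat.lt_or_ge N n with hlt | hge
  swap
  · refine ⟨∅, by rw [Finset.card_empty]; omega, fun g hg hgP => ?_⟩
    have h0 : {v : Fin n × ℕ | v.1 ∈ (∅ : Finset (Fin n))} = ∅ := by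
      ext v
      simp
    rw [h0, supported_empty, Algebra.mem_bot] at hg
    obtain ⟨a, rfl⟩ := hg
    by_contra hne
    have ha : a ≠ 0 := fun h => hne (by rw [h, map_zero])
    apply hPp.ne_top
    refine Ideal.eq_top_of_isUnit_mem _ hgP ?_
    exact (IsUnit.mk0 a ha).map _
  -- the homogeneous system
  let σ : Type := Σ m : Fin i, Fin ((u m).totalDegree)
  have hcard : Fintype.card σ = N := by
    rw [hN, Fintype.card_sigma]
    simp
  let ε : Fin N ≃ σ := (Fintype.equivFinOfCardEq hcard).symm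
  let U : Fin N → MvPolynomial (Fin n × ℕ) L := fun t =>
    homogeneousComponent (((ε t).2 : ℕ) + 1) (Θ κ D ξ (u (ε t).1))
  obtain ⟨Q, hQ, hQX, J, hJ, hJQ⟩ := exists_component_weighted D hlt U (fun _ => 1)
    (fun _ => one_pos) (fun t => ((ε t).2 : ℕ) + 1) (fun t => Nat.succ_pos _)
    (fun t => homogeneousComponent_isHomogeneous _ _)
  have hQp : Q.IsPrime := hQ.1.1
  have hQd : ∀ f ∈ Q, dext D f ∈ Q :=
    minimalPrimes_differential (dext D) _ (P15.diffIdeal_stable D U) Q hQ
  have hUQ : ∀ t, U t ∈ Q := fun t => hQ.1.2 (Ideal.subset_span ⟨(t, 0), rfl⟩)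
  have huQ : ∀ m, Θ κ D ξ (u m) ∈ Q := by
    intro m
    rw [← sum_homogeneousComponent (Θ κ D ξ (u m))]
    refine Ideal.sum_mem _ fun k hk => ?_
    rcases k with _ | k
    · rw [homogeneousComponent_zero]
      have h1 : coeff 0 (Θ κ D ξ (u m)) = 0 := by
        have h2 := hconst (u m)
        rw [(hπP (u m)).mpr (hPu (Ideal.subset_span ⟨(m, 0), rfl⟩))] at h2
        exact h2
      rw [h1, C_0]
      exact Ideal.zero_mem _
    · have hle : (Θ κ D ξ (u m)).totalDegree ≤ (u m).totalDegree :=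
        totalDegree_eval₂_le κ _ (fun v => by
          refine (totalDegree_add _ _).trans ?_
          rw [totalDegree_X, totalDegree_C]
          exact le_of_eq (max_eq_left (Nat.zero_le 1))) (u m)
      have hk' : k < (u m).totalDegree := by
        have := Finset.mem_range.mp hk
        omega
      have h3 := hUQ (ε.symm ⟨m, ⟨k, hk'⟩⟩)
      simp only [U] at h3
      rw [Equiv.apply_symm_apply] at h3
      exact h3
  have hle : diffIdeal d u ≤ Q.comap (Θ κ D ξ) := by
    unfold diffIdeal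
    rw [Ideal.span_le]
    rintro _ ⟨⟨m, l⟩, rfl⟩
    change Θ κ D ξ ((dext d)^[l] (u m)) ∈ Q
    rw [Θ_dext_iterate κ D ξ d hκ]
    induction l with
    | zero => exact huQ m
    | succ l ih =>
      rw [Function.iterate_succ_apply']
      exact hQd _ ih
  have hQP : Q.comap (Θ κ D ξ) ≤ P := by
    intro g hg
    rw [← hπP, ← hconst]
    have h4 : Θ κ D ξ g ∈ Ideal.span (Set.range (X : Fin n × ℕ → MvPolynomial (Fin n × ℕ) L)) :=
      hQX hg
    have h5 : Ideal.span (Set.range (X : Fin n × ℕ → MvPolynomial (Fin n × ℕ) L)) ≤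
        RingHom.ker (constantCoeff : MvPolynomial (Fin n × ℕ) L →+* L) := by
      rw [Ideal.span_le]
      rintro _ ⟨v, rfl⟩
      change constantCoeff (X v : MvPolynomial (Fin n × ℕ) L) = 0
      simp
    exact h5 h4
  have hPQ : P ≤ Q.comap (Θ κ D ξ) := hP.2 ⟨Ideal.IsPrime.comap _, hle⟩ hQP
  refine ⟨J, hJ, fun g hg hgP => ?_⟩
  exact Θ_injective κ D ξ g (hJQ _ (Θ_supported κ D ξ J g hg) (hPQ hgP))

end Pool.Agent.Helper62.DD
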