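import Mathlib
import Pool.Agent.Helper21.PD.P16
import Pool.Agent.Helper21.PD.P11
import Pool.Agent.Helper21.PD.P15

/-!
# The degree bound for the dimension of components (project DD, `MP_2c9d0b_al`)

For every set `S` of unknowns, every minimal prime over `[u₁, …, u_i]` has differential
transcendence degree at least `|S| - ∑ deg_S u_m`, where `deg_S` is the degree in the unknowns of
`S` and their derivatives: at a generic point `ξ` of the component the homogeneous parts of the
`u_m (ξ + y)`, `y` supported on `S`, form a homogeneous system of `∑ deg_S u_m` equations in `|S|`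
unknowns, to which the theorem on homogeneous systems applies.
-/

open MvPolynomial

namespace Pool.Agent.Helper62.DD

open Pool.Agent.Helper21.PD

/-- The weight which is one on the unknowns of `S` and their derivatives, zero otherwise. -/
abbrev wS {n : ℕ} (S : Finset (Fin n)) : Fin n × ℕ → ℕ := fun v => if v.1 ∈ S then 1 else 0

section

variable {K L : Type} [Field K] [Field L] {n : ℕ} (κ : K →+* L) (D : Der L) (ξ : Fin n → L)
  (S : Finset (Fin n))

/-- The homomorphism `K{x} → L{y}`, `x_j ↦ ξ_j + y_j` for `j ∈ S`, `x_j ↦ ξ_j` otherwise. -/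
noncomputable def Θ : MvPolynomial (Fin n × ℕ) K →+* MvPolynomial (Fin n × ℕ) L :=
  eval₂Hom ((C : L →+* MvPolynomial (Fin n × ℕ) L).comp κ)
    (fun v => (if v.1 ∈ S then X v else 0) + C ((D)^[v.2] (ξ v.1)))

theorem Θ_C (a : K) : Θ κ D ξ S (C a) = C (κ a) := by
  simp [Θ]

theorem Θ_X (v : Fin n × ℕ) :
    Θ κ D ξ S (X v) = (if v.1 ∈ S then X v else 0) + C ((D)^[v.2] (ξ v.1)) := by
  simp [Θ]

theorem Θ_dext (d : Der K) (hκ : ∀ a, κ (d a) = D (κ a)) (g : MvPolynomial (Fin n × ℕ) K) :
    Θ κ D ξ S (dext d g) = dext D (Θ κ D ξ S g) := by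
  refine derivation_ext (Θ κ D ξ S) (fun g => Θ κ D ξ S (dext d g))
    (fun g => dext D (Θ κ D ξ S g)) (by simp [Der.add]) (by simp [Der.add])
    (by simp [Der.mul]) (by simp [Der.mul]) ?_ ?_ g
  · intro a
    rw [dext_C, Θ_C, Θ_C, dext_C, hκ]
  · intro v
    rw [dext_X, Θ_X, Θ_X, Der.add, dext_C, Function.iterate_succ_apply']
    by_cases hv : v.1 ∈ S
    · rw [if_pos hv, if_pos hv, dext_X]
    · rw [if_neg hv, if_neg hv, Der.zero]

theorem Θ_dext_iterate (d : Der K) (hκ : ∀ a, κ (d a) = D (κ a)) (l : ℕ)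
    (g : MvPolynomial (Fin n × ℕ) K) :
    Θ κ D ξ S ((dext d)^[l] g) = (dext D)^[l] (Θ κ D ξ S g) := by
  induction l with
  | zero => rfl
  | succ l ih => rw [Function.iterate_succ_apply', Function.iterate_succ_apply',
      Θ_dext κ D ξ S d hκ, ih]

theorem Θ_totalDegree (g : MvPolynomial (Fin n × ℕ) K) :
    (Θ κ D ξ S g).totalDegree ≤ g.weightedTotalDegree (wS S) := by
  classical
  rw [Θ, coe_eval₂Hom, eval₂_eq]
  refine (totalDegree_finsetSum_le (d := g.weightedTotalDegree (wS S)) fun γ hγ => ?_)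
  refine (totalDegree_mul _ _).trans ?_
  rw [RingHom.comp_apply, totalDegree_C, zero_add]
  refine (totalDegree_finsetProd _ _).trans ?_
  have h1 : ∀ v ∈ γ.support, (((if v.1 ∈ S then X v else 0) +
      C ((D)^[v.2] (ξ v.1)) : MvPolynomial (Fin n × ℕ) L) ^ γ v).totalDegree ≤
        γ v • wS S v := fun v _ => by
    refine (totalDegree_pow _ _).trans ?_
    rw [smul_eq_mul]
    refine Nat.mul_le_mul_left _ ?_
    refine (totalDegree_add _ _).trans ?_
    rw [totalDegree_C]
    by_cases hv : v.1 ∈ S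
    · simp only [wS, if_pos hv, totalDegree_X]
      exact le_of_eq (max_eq_left (Nat.zero_le 1))
    · simp only [wS, if_neg hv, totalDegree_zero, max_self, le_refl]
  refine (Finset.sum_le_sum h1).trans ?_
  have h2 : (Finset.sum γ.support fun v => γ v • wS S v) = Finsupp.weight (wS S) γ := by
    rw [Finsupp.weight_apply]
    rfl
  rw [h2]
  exact le_weightedTotalDegree (wS S) hγ

theorem Θ_injective (J : Finset (Fin n)) (hJ : J ⊆ S) (g : MvPolynomial (Fin n × ℕ) K)
    (hgJ : g ∈ supported K {v : Fin n × ℕ | v.1 ∈ J}) (hg : Θ κ D ξ S g = 0) : g = 0 := by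
  have h1 : ∀ g ∈ supported K {v : Fin n × ℕ | v.1 ∈ J},
      (eval₂Hom (C : L →+* MvPolynomial (Fin n × ℕ) L)
        (fun v => X v - C ((D)^[v.2] (ξ v.1)))) (Θ κ D ξ S g) = MvPolynomial.map κ g := by
    intro g hg
    rw [supported_eq_range_rename] at hg
    obtain ⟨g', rfl⟩ := hg
    change (eval₂Hom C (fun v => X v - C ((D)^[v.2] (ξ v.1))))
      (Θ κ D ξ S (rename Subtype.val g')) = MvPolynomial.map κ (rename Subtype.val g')
    induction g' using MvPolynomial.induction_on with
    | C a => rw [rename_C, Θ_C, map_C, coe_eval₂Hom, eval₂_C]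
    | add p q hp hq => rw [map_add, map_add, map_add, map_add, hp, hq]
    | mul_X p v hp =>
      rw [map_mul, map_mul, map_mul, map_mul, hp, rename_X, Θ_X, if_pos (hJ v.2), map_X, map_add,
        coe_eval₂Hom, eval₂_X, eval₂_C, sub_add_cancel]
  have h2 : MvPolynomial.map κ g = 0 := by
    rw [← h1 g hgJ, hg, map_zero]
  exact (map_eq_zero_iff _ (MvPolynomial.map_injective κ κ.injective)).mp h2

theorem Θ_supported (J : Finset (Fin n)) (g : MvPolynomial (Fin n × ℕ) K)
    (hg : g ∈ supported K {v : Fin n × ℕ | v.1 ∈ J}) :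
    Θ κ D ξ S g ∈ supported L {v : Fin n × ℕ | v.1 ∈ J} := by
  rw [supported_eq_range_rename] at hg
  obtain ⟨g', rfl⟩ := hg
  change Θ κ D ξ S (rename Subtype.val g') ∈ _
  induction g' using MvPolynomial.induction_on with
  | C a =>
    rw [rename_C, Θ_C]
    exact Subalgebra.algebraMap_mem _ _
  | add p q hp hq =>
    rw [map_add, map_add]
    exact Subalgebra.add_mem _ hp hq
  | mul_X p v hp =>
    rw [map_mul, map_mul, rename_X, Θ_X]
    refine Subalgebra.mul_mem _ hp (Subalgebra.add_mem _ ?_ (Subalgebra.algebraMap_mem _ _))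
    split_ifs
    · exact X_mem_supported.mpr v.2
    · exact Subalgebra.zero_mem _

end

theorem dim_ge {K : Type} [Field K] [CharZero K] (d : Der K) {n i : ℕ}
    (u : Fin i → MvPolynomial (Fin n × ℕ) K) (P : Ideal (MvPolynomial (Fin n × ℕ) K))
    (hP : P ∈ (diffIdeal d u).minimalPrimes) (S : Finset (Fin n)) :
    ∃ J ⊆ S, J.card = S.card - ∑ m, (u m).weightedTotalDegree (wS S) ∧
      ∀ g ∈ supported K {v : Fin n × ℕ | v.1 ∈ J}, g ∈ P → g = 0 := by
  classical
  set N : ℕ := ∑ m, (u m).weightedTotalDegree (wS S) with hN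
  have hPp : P.IsPrime := hP.1.1
  have hPu : diffIdeal d u ≤ P := hP.1.2
  have hPd : ∀ f ∈ P, dext d f ∈ P :=
    minimalPrimes_differential (dext d) _ (P15.diffIdeal_stable d u) P hP
  obtain ⟨L, _, D, π, hπD, hπP⟩ := P15.exists_field (dext d) P hPp hPd
  set κ : K →+* L := π.comp C with hκdef
  have hκ : ∀ a, κ (d a) = D (κ a) := fun a => by
    rw [hκdef, RingHom.comp_apply, RingHom.comp_apply, hπD, dext_C]
  have hchar : CharZero L := charZero_of_injective_ringHom κ.injective
  set ξ : Fin n → L := fun j => π (X (j, 0)) with hξ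
  have hξk : ∀ (k : ℕ) (j : Fin n), (D)^[k] (ξ j) = π (X (j, k)) := by
    intro k j
    induction k with
    | zero => rfl
    | succ k ih => rw [Function.iterate_succ_apply', ih, hπD, dext_X]
  have hconst : ∀ g, constantCoeff (Θ κ D ξ S g) = π g := by
    intro g
    have : ((constantCoeff : MvPolynomial (Fin n × ℕ) L →+* L).comp (Θ κ D ξ S)) = π := by
      refine MvPolynomial.ringHom_ext ?_ ?_
      · intro a
        rw [RingHom.comp_apply, Θ_C, constantCoeff_C]
        rfl
      · intro v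
        rw [RingHom.comp_apply, Θ_X, map_add, constantCoeff_C, hξk]
        split_ifs
        · rw [constantCoeff_X, zero_add]
        · rw [map_zero, zero_add]
    exact RingHom.congr_fun this g
  rcases Nat.lt_or_ge N S.card with hlt | hge
  swap
  · refine ⟨∅, Finset.empty_subset _, by rw [Finset.card_empty]; omega, fun g hg hgP => ?_⟩
    have h0 : {v : Fin n × ℕ | v.1 ∈ (∅ : Finset (Fin n))} = ∅ := by
      ext v
      simp
    rw [h0, supported_empty, Algebra.mem_bot] at hg
    obtain ⟨a, rfl⟩ := hg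
    by_contra hne
    have ha : a ≠ 0 := fun h => hne (by rw [h, map_zero])
    apply hPp.ne_top
    refine Ideal.eq_top_of_isUnit_mem _ hgP ?_
    exact (IsUnit.mk0 a ha).map _
  -- the homogeneous system
  let σ : Type := (Σ m : Fin i, Fin ((u m).weightedTotalDegree (wS S))) ⊕ {j : Fin n // j ∉ S}
  have hSn : S.card ≤ n := by
    have := Finset.card_le_univ S
    rwa [Fintype.card_fin] at this
  have hcard : Fintype.card σ = N + (n - S.card) := by
    have h1 : Fintype.card {j : Fin n // j ∉ S} = n - S.card := by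
      rw [Fintype.card_subtype_compl, Fintype.card_fin, Fintype.card_coe]
    rw [hN, Fintype.card_sum, Fintype.card_sigma, h1]
    simp
  let ε : Fin (N + (n - S.card)) ≃ σ := (Fintype.equivFinOfCardEq hcard).symm
  let U' : σ → MvPolynomial (Fin n × ℕ) L := Sum.elim
    (fun t => homogeneousComponent ((t.2 : ℕ) + 1) (Θ κ D ξ S (u t.1))) (fun j => X (j.1, 0))
  let e' : σ → ℕ := Sum.elim (fun t => (t.2 : ℕ) + 1) (fun _ => 1)
  have hU' : ∀ t, (U' t).IsWeightedHomogeneous (fun v : Fin n × ℕ => 1) (e' t) := by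
    rintro (t | j)
    · exact homogeneousComponent_isHomogeneous _ _
    · exact isWeightedHomogeneous_X _ _ _
  have he' : ∀ t, 0 < e' t := by
    rintro (t | j)
    · exact Nat.succ_pos _
    · exact one_pos
  obtain ⟨Q, hQ, hQX, J, hJ, hJQ⟩ := exists_component_weighted D
    (show N + (n - S.card) < n by omega) (fun t => U' (ε t)) (fun _ => 1)
    (fun _ => one_pos) (fun t => e' (ε t)) (fun t => he' _) (fun t => hU' _)
  have hQp : Q.IsPrime := hQ.1.1
  have hQd : ∀ f ∈ Q, dext D f ∈ Q :=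
    minimalPrimes_differential (dext D) _ (P15.diffIdeal_stable D _) Q hQ
  have hUQ : ∀ t, U' t ∈ Q := fun t => by
    have h1 : U' (ε (ε.symm t)) ∈ Q := hQ.1.2 (Ideal.subset_span ⟨(ε.symm t, 0), rfl⟩)
    rwa [Equiv.apply_symm_apply] at h1
  have huQ : ∀ m, Θ κ D ξ S (u m) ∈ Q := by
    intro m
    rw [← sum_homogeneousComponent (Θ κ D ξ S (u m))]
    refine Ideal.sum_mem _ fun k hk => ?_
    rcases k with _ | k
    · rw [homogeneousComponent_zero]
      have h1 : coeff 0 (Θ κ D ξ S (u m)) = 0 := by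
        have h2 := hconst (u m)
        rw [(hπP (u m)).mpr (hPu (Ideal.subset_span ⟨(m, 0), rfl⟩))] at h2
        exact h2
      rw [h1, C_0]
      exact Ideal.zero_mem _
    · have hle := Θ_totalDegree κ D ξ S (u m)
      have hk' : k < (u m).weightedTotalDegree (wS S) := by
        have := Finset.mem_range.mp hk
        omega
      exact hUQ (Sum.inl ⟨m, ⟨k, hk'⟩⟩)
  have hle : diffIdeal d u ≤ Q.comap (Θ κ D ξ S) := by
    unfold diffIdeal
    rw [Ideal.span_le]
    rintro _ ⟨⟨m, l⟩, rfl⟩
    change Θ κ D ξ S ((dext d)^[l] (u m)) ∈ Q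
    rw [Θ_dext_iterate κ D ξ S d hκ]
    induction l with
    | zero => exact huQ m
    | succ l ih =>
      rw [Function.iterate_succ_apply']
      exact hQd _ ih
  have hQP : Q.comap (Θ κ D ξ S) ≤ P := by
    intro g hg
    rw [← hπP, ← hconst]
    have h4 : Θ κ D ξ S g ∈
        Ideal.span (Set.range (X : Fin n × ℕ → MvPolynomial (Fin n × ℕ) L)) := hQX hg
    have h5 : Ideal.span (Set.range (X : Fin n × ℕ → MvPolynomial (Fin n × ℕ) L)) ≤
        RingHom.ker (constantCoeff : MvPolynomial (Fin n × ℕ) L →+* L) := by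
      rw [Ideal.span_le]
      rintro _ ⟨v, rfl⟩
      change constantCoeff (X v : MvPolynomial (Fin n × ℕ) L) = 0
      simp
    exact h5 h4
  have hPQ : P ≤ Q.comap (Θ κ D ξ S) := hP.2 ⟨Ideal.IsPrime.comap _, hle⟩ hQP
  have hJS : J ⊆ S := by
    intro j hj
    by_contra hjS
    have h1 : (X (j, 0) : MvPolynomial (Fin n × ℕ) L) = 0 :=
      hJQ _ (X_mem_supported.mpr hj) (hUQ (Sum.inr ⟨j, hjS⟩))
    exact X_ne_zero _ h1
  refine ⟨J, hJS, by omega, fun g hg hgP => ?_⟩
  exact Θ_injective κ D ξ S J hJS g hg (hJQ _ (Θ_supported κ D ξ S J g hg) (hPQ hgP))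

end Pool.Agent.Helper62.DD
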